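import Mathlib

/-!
# Finite-dimensional algebras with a non-degenerate trace
-/

namespace Pool.Agent.N166.AB

/-- A finite-dimensional algebra with an additive function which vanishes on nilpotent elements
and such that the form `(a, b) ↦ t(b a)` is non-degenerate is semisimple. -/
theorem isSemisimpleRing_of_trace {R : Type*} [Ring R] [Algebra ℚ R] [Module.Finite ℚ R]
    {K : Type*} [AddCommGroup K] (t : R → K) (h0 : ∀ a, IsNilpotent a → t a = 0)
    (hnd : ∀ a, (∀ b, t (b * a) = 0) → a = 0) : IsSemisimpleRing R := by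
  have hA : IsArtinianRing R := IsArtinianRing.of_finite ℚ R
  rw [IsArtinianRing.isSemisimpleRing_iff_jacobson, eq_bot_iff]
  intro a ha
  obtain ⟨n, hn⟩ := IsSemiprimaryRing.isNilpotent (R := R)
  refine (Submodule.mem_bot R).2 (hnd a fun b => h0 _ ⟨n, ?_⟩)
  have h1 : (b * a) ^ n ∈ Ring.jacobson R ^ n :=
    Ideal.pow_mem_pow (Ideal.mul_mem_left _ b ha) n
  rw [hn] at h1
  exact h1

end Pool.Agent.N166.AB
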