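import Pool.Agent.W550.Corr.Basic

/-!
# Restrictions of compositions to the diagonal
-/

open CategoryTheory AlgebraicGeometry

universe u v w t

namespace Pool.Agent.N166.AB

open Pool.Agent.H914 Pool.Agent.H914.VarClass Pool.Agent.H914.VarClass.Obj Pool.Agent.W492.BB
  Pool.Agent.W550.Corr

variable {k : Type u} [Field k] {𝒱 : VarClass k}

section chow

variable {C : TheoryData.{u, v, 0} 𝒱 ℚ} [hC : IsChow C] {X Y Z : 𝒱.Obj}

/-- The degree of the diagonal. -/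
lemma diagonal_mem {i : ℤ} (hi : i = X.dim) : dg C X ∈ C.gr (X.prod X) i := by
  have h := C.push_mem (Obj.lift (𝟙 X) (𝟙 X)) (C.one_mem X)
  have e1 : (0 : ℤ) + 1 * (((X.prod X).dim : ℤ) - (X.dim : ℤ)) = i := by
    rw [dim_prod, hi]; push_cast; ring
  rw [e1] at h
  exact h

/-- The degree of a composition. -/
lemma compose_mem {i j l : ℤ} {Γ : C.A (X.prod Y)} {Δ : C.A (Y.prod Z)}
    (hΓ : Γ ∈ C.gr (X.prod Y) i) (hΔ : Δ ∈ C.gr (Y.prod Z) j) (hl : l = i + j - Y.dim) :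
    C.comp Γ Δ ∈ C.gr (X.prod Z) l := by
  have h := C.push_mem (t13 X Y Z) (C.mul_mem (C.pull_mem (t23 X Y Z) hΔ)
    (C.pull_mem (fst (X.prod Y) Z) hΓ))
  have e1 : j + i + 1 * (((X.prod Z).dim : ℤ) - (((X.prod Y).prod Z).dim : ℤ)) = l := by
    rw [dim_prod, dim_prod, dim_prod, hl]; push_cast; ring
  rw [e1] at h
  exact h

end chow

section theory

variable {F : Type w} [Field F] {δ : ℤ} (T : TheoryData.{u, v, w} 𝒱 F) [hT : IsTheory T δ]
  [hI : HasIso T] {W X Y Z V : 𝒱.Obj}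

include hT hI

/-- Base change along arbitrary morphisms for the projections. -/
lemma base_pull (f : W ⟶ Y) (w : T.A (Y.prod Z)) :
    T.pull f (T.push (fst Y Z) w) = T.push (fst W Z) (T.pull (prodMap f (𝟙 Z)) w) := by
  have h0 : ∀ z : T.A Y, T.pull f z = T.push (fst W Y) (T.push (Obj.lift (𝟙 W) f) 1 *
      T.pull (snd W Y) z) := by
    intro z
    rw [← T.proj_right, ← T.push_comp, ← T.pull_comp, lift_fst, lift_snd, one_mul, T.push_id]
  have e1 : prodMap (𝟙 W) (fst Y Z) = aJ W Y Z ≫ fst (W.prod Y) Z := by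
    apply prod_ext <;> simp [aJ, comp_lift]
  have h1 : T.pull (prodMap (𝟙 W) (fst Y Z)) (T.push (Obj.lift (𝟙 W) f) 1) =
      T.push (prodMap (Obj.lift (𝟙 W) f) (𝟙 Z) ≫ aI W Y Z) 1 := by
    rw [e1, T.pull_comp, T.base_fst, map_one, pull_iso T (aJ W Y Z) (aI W Y Z) aJ_aI aI_aJ,
      ← T.push_comp]
  have e2 : prodMap (𝟙 W) (fst Y Z) ≫ fst W Y = fst W (Y.prod Z) := by simp
  have e3 : (prodMap (Obj.lift (𝟙 W) f) (𝟙 Z) ≫ aI W Y Z) ≫ fst W (Y.prod Z) = fst W Z := by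
    simp [aI]
  have e4 : (prodMap (Obj.lift (𝟙 W) f) (𝟙 Z) ≫ aI W Y Z) ≫ snd W (Y.prod Z) =
      prodMap f (𝟙 Z) := by
    apply prod_ext <;> simp [aI]
  rw [h0, T.base_snd, ← T.proj_left, ← T.push_comp, e2, h1, ← T.proj_right, ← T.push_comp,
    ← T.pull_comp, e3, e4, one_mul]

omit hT hI in
/-- The exchange of the last two factors. -/
noncomputable def rh (X Y Z : 𝒱.Obj) : (X.prod Y).prod Z ⟶ (X.prod Z).prod Y :=
  Obj.lift (Obj.lift (fst (X.prod Y) Z ≫ fst X Y) (snd (X.prod Y) Z)) (fst (X.prod Y) Z ≫ snd X Y)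

omit hT hI in
lemma rh_rh (X Y Z : 𝒱.Obj) : rh X Y Z ≫ rh X Z Y = 𝟙 _ := by
  apply prod_ext
  · apply prod_ext <;> simp [rh, comp_lift]
  · simp [rh, comp_lift]

/-- The restriction of a composition to the diagonal. -/
lemma pull_diag_comp (a : T.A (Y.prod Z)) (b : T.A (Z.prod Y)) :
    T.pull (Obj.lift (𝟙 Y) (𝟙 Y)) (T.comp a b) = T.push (fst Y Z) (T.pull (sw Y Z) b * a) := by
  have e1 : t13 Y Z Y = rh Y Z Y ≫ fst (Y.prod Y) Z := by
    apply prod_ext <;> simp [rh, t13, comp_lift]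
  have e2 : (prodMap (Obj.lift (𝟙 Y) (𝟙 Y)) (𝟙 Z) ≫ rh Y Y Z) ≫ t23 Y Z Y = sw Y Z := by
    apply prod_ext <;> simp [rh, t23, comp_lift, sw]
  have e3 : (prodMap (Obj.lift (𝟙 Y) (𝟙 Y)) (𝟙 Z) ≫ rh Y Y Z) ≫ fst (Y.prod Z) Y =
      𝟙 _ := by
    apply prod_ext <;> simp [rh, comp_lift]
  rw [TheoryData.comp, e1, T.push_comp, ← pull_iso T (rh Y Y Z) (rh Y Z Y) (rh_rh Y Y Z)
    (rh_rh Y Z Y), base_pull, ← T.pull_comp, map_mul, ← T.pull_comp, ← T.pull_comp, e2, e3,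
    T.pull_id]

end theory

end Pool.Agent.N166.AB
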