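import Mathlib

/-!
# Regular additive categories are abelian and semisimple
-/

set_option linter.unusedSectionVars false

open CategoryTheory CategoryTheory.Limits CategoryTheory.Idempotents

universe v u

namespace Pool.Agent.N166.AB

/-- Every morphism has a quasi-inverse. -/
def IsRegularCat (𝒜 : Type u) [Category.{v} 𝒜] : Prop :=
  ∀ (M N : 𝒜) (f : M ⟶ N), ∃ g : N ⟶ M, f ≫ g ≫ f = f

section

variable {𝒜 : Type u} [Category.{v} 𝒜] [Preadditive 𝒜]

lemma isSplitMono_of_reg (h : IsRegularCat 𝒜) {M N : 𝒜} (f : M ⟶ N) [Mono f] :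
    IsSplitMono f := by
  obtain ⟨g, hg⟩ := h M N f
  have h1 : f ≫ g = 𝟙 M := by
    rw [← cancel_mono f, Category.assoc, hg, Category.id_comp]
  exact ⟨⟨⟨g, h1⟩⟩⟩

lemma isSplitEpi_of_reg (h : IsRegularCat 𝒜) {M N : 𝒜} (f : M ⟶ N) [Epi f] :
    IsSplitEpi f := by
  obtain ⟨g, hg⟩ := h M N f
  have h1 : g ≫ f = 𝟙 N := by
    rw [← cancel_epi f, hg, Category.comp_id]
  exact ⟨⟨⟨g, h1⟩⟩⟩

lemma hasKernel_of_reg [IsIdempotentComplete 𝒜] {M N : 𝒜} (f : M ⟶ N) {g : N ⟶ M}
    (hg : f ≫ g ≫ f = f) : HasKernel f := by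
  have he : (𝟙 M - f ≫ g) ≫ (𝟙 M - f ≫ g) = 𝟙 M - f ≫ g := by
    have h1 : (f ≫ g) ≫ f ≫ g = f ≫ g := by
      rw [Category.assoc, ← Category.assoc g, ← Category.assoc f, hg]
    simp only [Preadditive.sub_comp, Preadditive.comp_sub, Category.id_comp, Category.comp_id, h1,
      sub_self, sub_zero]
  obtain ⟨Y, i, e, hi, hei⟩ := IsIdempotentComplete.idempotents_split M _ he
  have hif : i ≫ f = 0 := by
    have h1 : i = i ≫ (𝟙 M - f ≫ g) := by rw [← hei, ← Category.assoc, hi, Category.id_comp]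
    rw [h1, Category.assoc, Preadditive.sub_comp, Category.id_comp, Category.assoc, hg, sub_self,
      comp_zero]
  refine ⟨⟨⟨KernelFork.ofι i hif, ?_⟩⟩⟩
  refine KernelFork.IsLimit.ofι _ _ (fun {W} k _ => k ≫ e) (fun {W} k hk => ?_)
    (fun {W} k hk m hm => ?_)
  · rw [Category.assoc, hei, Preadditive.comp_sub, Category.comp_id, ← Category.assoc, hk,
      zero_comp, sub_zero]
  · rw [← hm, Category.assoc, hi, Category.comp_id]

lemma hasCokernel_of_reg [IsIdempotentComplete 𝒜] {M N : 𝒜} (f : M ⟶ N) {g : N ⟶ M}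
    (hg : f ≫ g ≫ f = f) : HasCokernel f := by
  have he : (𝟙 N - g ≫ f) ≫ (𝟙 N - g ≫ f) = 𝟙 N - g ≫ f := by
    have h1 : (g ≫ f) ≫ g ≫ f = g ≫ f := by
      rw [Category.assoc, hg]
    simp only [Preadditive.sub_comp, Preadditive.comp_sub, Category.id_comp, Category.comp_id, h1,
      sub_self, sub_zero]
  obtain ⟨Y, i, e, hi, hei⟩ := IsIdempotentComplete.idempotents_split N _ he
  have hif : f ≫ e = 0 := by
    have h1 : e = (𝟙 N - g ≫ f) ≫ e := by rw [← hei, Category.assoc, hi, Category.comp_id]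
    rw [h1, ← Category.assoc, Preadditive.comp_sub, Category.comp_id, hg, sub_self,
      zero_comp]
  refine ⟨⟨⟨CokernelCofork.ofπ e hif, ?_⟩⟩⟩
  refine CokernelCofork.IsColimit.ofπ _ _ (fun {W} k _ => i ≫ k) (fun {W} k hk => ?_)
    (fun {W} k hk m hm => ?_)
  · rw [← Category.assoc, hei, Preadditive.sub_comp, Category.id_comp, Category.assoc, hk,
      comp_zero, sub_zero]
  · rw [← hm, ← Category.assoc, hi, Category.id_comp]

/-- A regular idempotent complete additive category is abelian. -/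
theorem abelian_of_reg [HasFiniteProducts 𝒜] [IsIdempotentComplete 𝒜] (h : IsRegularCat 𝒜) :
    Nonempty (Abelian 𝒜) := by
  have hk : HasKernels 𝒜 := ⟨fun {M N} f => by
    obtain ⟨g, hg⟩ := h M N f
    exact hasKernel_of_reg f hg⟩
  have hc : HasCokernels 𝒜 := ⟨fun {M N} f => by
    obtain ⟨g, hg⟩ := h M N f
    exact hasCokernel_of_reg f hg⟩
  have hm : IsNormalMonoCategory 𝒜 := ⟨fun {M N} f _ => by
    obtain ⟨g, hg⟩ := h M N f
    have h1 : f ≫ g = 𝟙 M := by
      rw [← cancel_mono f, Category.assoc, hg, Category.id_comp]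
    refine ⟨⟨N, 𝟙 N - g ≫ f, ?_, ?_⟩⟩
    · rw [Preadditive.comp_sub, Category.comp_id, hg, sub_self]
    · refine KernelFork.IsLimit.ofι _ _ (fun {W} k _ => k ≫ g) (fun {W} k hk => ?_)
        (fun {W} k hk m hm => ?_)
      · rw [Preadditive.comp_sub, Category.comp_id, sub_eq_zero] at hk
        rw [Category.assoc]
        exact hk.symm
      · rw [← hm, Category.assoc, h1, Category.comp_id]⟩
  have he : IsNormalEpiCategory 𝒜 := ⟨fun {M N} f _ => by
    obtain ⟨g, hg⟩ := h M N f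
    have h1 : g ≫ f = 𝟙 N := by
      rw [← cancel_epi f, hg, Category.comp_id]
    refine ⟨⟨M, 𝟙 M - f ≫ g, ?_, ?_⟩⟩
    · rw [Preadditive.sub_comp, Category.id_comp, Category.assoc, hg, sub_self]
    · refine CokernelCofork.IsColimit.ofπ _ _ (fun {W} k _ => g ≫ k) (fun {W} k hk => ?_)
        (fun {W} k hk m hm => ?_)
      · rw [Preadditive.sub_comp, Category.id_comp, sub_eq_zero] at hk
        rw [← Category.assoc]
        exact hk.symm
      · rw [← hm, ← Category.assoc, h1, Category.id_comp]⟩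
  exact ⟨{ (inferInstance : Preadditive 𝒜), hm, he with
    has_finite_products := inferInstance
    has_kernels := hk
    has_cokernels := hc }⟩

/-- It suffices that endomorphisms have quasi-inverses. -/
lemma isRegularCat_of_end [HasBinaryBiproducts 𝒜]
    (h : ∀ (M : 𝒜) (f : M ⟶ M), ∃ g : M ⟶ M, f ≫ g ≫ f = f) : IsRegularCat 𝒜 := by
  intro M N f
  obtain ⟨g, hg⟩ := h (M ⊞ N) (biprod.fst ≫ f ≫ biprod.inr)
  refine ⟨biprod.inr ≫ g ≫ biprod.fst, ?_⟩
  have h1 := congrArg (fun t => biprod.inl ≫ t ≫ biprod.snd) hg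
  simpa using h1

/-- The Karoubi envelope of a regular category is regular. -/
lemma isRegularCat_karoubi (h : IsRegularCat 𝒜) : IsRegularCat (Karoubi 𝒜) := by
  intro P Q f
  obtain ⟨g, hg⟩ := h P.X Q.X f.f
  refine ⟨⟨Q.p ≫ g ≫ P.p, by simp⟩, ?_⟩
  ext
  simp [hg]

/-- In a semisimple ring every element has a quasi-inverse. -/
lemma exists_quasi_inverse {R : Type*} [Ring R] [IsSemisimpleRing R] (a : R) :
    ∃ b : R, a * b * a = a := by
  obtain ⟨e, he, hI⟩ := IsSemisimpleRing.ideal_eq_span_idempotent (Ideal.span {a})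
  have h1 : e ∈ Ideal.span {a} := by rw [hI]; exact Ideal.mem_span_singleton_self e
  have h2 : a ∈ Ideal.span {e} := by rw [← hI]; exact Ideal.mem_span_singleton_self a
  rw [Ideal.mem_span_singleton'] at h1 h2
  obtain ⟨b, rfl⟩ := h1
  obtain ⟨c, hc⟩ := h2
  refine ⟨b, ?_⟩
  have h3 : a * (b * a) = a := by
    calc a * (b * a) = c * (b * a) * (b * a) := by rw [hc]
      _ = c * (b * a) := by rw [mul_assoc, he.eq]
      _ = a := hc
  rw [mul_assoc, h3]

end

end Pool.Agent.N166.AB
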