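import Pool.Agent.N166.AB.Rho
import Pool.Agent.N166.AB.Reg

/-!
# Chow motives generated by varieties on which rational and numerical equivalence coincide
-/

open CategoryTheory CategoryTheory.Limits CategoryTheory.Idempotents AlgebraicGeometry

universe u v w t

namespace Pool.Agent.N166.AB

open Module Pool.Agent.H914 Pool.Agent.H914.VarClass Pool.Agent.H914.VarClass.Obj
  Pool.Agent.W492.BB Pool.Agent.W550.Corr Pool.Agent.TH133
  Pool.Agent.W484.CK

set_option linter.unusedSectionVars false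

variable {k : Type u} [Field k] {𝒱 : VarClass k} {C : TheoryData.{u, v, 0} 𝒱 ℚ} {K : Type w}
  [Field K] [CharZero K] {H : WeilTheoryData.{u, v, w} C K} [hC : IsChow C] [hI : PushIso C] [hH : IsWeil H]
  {J : Type t} {X : J → 𝒱.Obj}

/-- The Chow groups modulo numerical equivalence are finite-dimensional. -/
lemma finite_gr (hS : Pool.Agent.W484.CH.IsStandard H) {Y : 𝒱.Obj} (hY : RatEqNum H Y) (i : ℤ) :
    Module.Finite ℚ (C.gr Y i) := by
  classical
  rcases lt_or_ge i 0 with hi | hi
  · rw [C.gr_neg Y i hi]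
    infer_instance
  rcases lt_or_ge (Y.dim : ℤ) i with hd | hd
  · rw [hS.chow_top Y i hd]
    infer_instance
  have hf := hS.finite Y
  obtain ⟨β, hβ⟩ := Pool.Agent.Y154.BQ.exists_form hS Y i
  obtain ⟨κ, hκ0, hκ⟩ := Pool.Agent.Y154.BQ.exists_kappa hS Y
  -- the classes of the cycles of complementary codimension
  let S : Set (H.A Y) := Set.range fun w : C.gr Y (Y.dim - i) => H.cl (w : C.A Y)
  obtain ⟨b, hbS, hspan, hli⟩ := exists_linearIndependent K S
  have hbf : Finite b := hli.setFinite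
  choose w hw using fun c : b => hbS c.2
  let Φ : C.gr Y i →ₗ[ℚ] (b → ℚ) := LinearMap.pi fun c => (LinearMap.flip β) (w c)
  refine Module.Finite.of_injective Φ ?_
  rw [injective_iff_map_eq_zero]
  intro z hz
  obtain ⟨n, hn⟩ := Int.eq_ofNat_of_zero_le hi
  apply Subtype.ext
  refine hY n (z : C.A Y) (by rw [← hn]; exact z.2) fun j w' hj hw' => ?_
  have hj' : (j : ℤ) = Y.dim - i := by omega
  rw [hj'] at hw'
  -- the pairing with the basis vanishes
  have h1 : ∀ c ∈ b, H.tr Y (H.cl (z : C.A Y) * c) = 0 := by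
    intro c hc
    have h2 : β z (w ⟨c, hc⟩) = 0 := congrFun hz ⟨c, hc⟩
    have h3 := hκ _ _ (hβ z (w ⟨c, hc⟩))
    have h4 : H.cl ((w ⟨c, hc⟩ : C.gr Y (Y.dim - i)) : C.A Y) = c := hw ⟨c, hc⟩
    rw [h2, map_mul, h4, Rat.cast_zero, zero_mul] at h3
    exact h3
  have h5 : H.cl w' ∈ Submodule.span K b := by
    rw [hspan]
    exact Submodule.subset_span ⟨⟨w', hw'⟩, rfl⟩
  have h6 : Submodule.span K b ≤ LinearMap.ker (H.tr Y ∘ₗ LinearMap.mulLeft K (H.cl (z : C.A Y))) :=
    Submodule.span_le.2 h1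
  have h7 := LinearMap.mem_ker.1 (h6 h5)
  rw [LinearMap.comp_apply, LinearMap.mulLeft_apply, ← map_mul] at h7
  exact h7

/-- The morphisms as a subspace of the Chow group. -/
noncomputable def homEquiv (a b : Twist C X) :
    HomT a b ≃+ C.gr ((X a.idx).prod (X b.idx)) ((X a.idx).dim + (b.twist - a.twist)) where
  toFun f := ⟨f.cls, f.deg⟩
  invFun x := ⟨x.1, x.2⟩
  left_inv _ := rfl
  right_inv _ := rfl
  map_add' _ _ := rfl

noncomputable instance modHomT (a b : Twist C X) : Module ℚ (HomT a b) where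
  smul r f := ⟨r • f.cls, Submodule.smul_mem _ r f.deg⟩
  one_smul _ := HomT.ext (one_smul _ _)
  mul_smul _ _ _ := HomT.ext (mul_smul _ _ _)
  smul_zero _ := HomT.ext (smul_zero _)
  smul_add _ _ _ := HomT.ext (smul_add _ _ _)
  add_smul _ _ _ := HomT.ext (add_smul _ _ _)
  zero_smul _ := HomT.ext (zero_smul _ _)

lemma cls_smul {a b : Twist C X} (r : ℚ) (f : HomT a b) : cls (r • f) = r • cls f := rfl

lemma finite_homT (hS : Pool.Agent.W484.CH.IsStandard H)
    (hX : ∀ i j, RatEqNum H ((X i).prod (X j))) (a b : Twist C X) :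
    Module.Finite ℚ (HomT a b) := by
  have h1 : Module.Finite ℚ (C.gr ((X a.idx).prod (X b.idx))
      ((X a.idx).dim + (b.twist - a.twist))) := finite_gr hS (hX a.idx b.idx) _
  let e : C.gr ((X a.idx).prod (X b.idx)) ((X a.idx).dim + (b.twist - a.twist)) →ₗ[ℚ] HomT a b :=
    { toFun := (homEquiv a b).symm
      map_add' := map_add _
      map_smul' := fun _ _ => rfl }
  exact Module.Finite.of_surjective e (homEquiv a b).symm.surjective

noncomputable instance (P Q : Mat_ (Twist C X)) : Module ℚ (P ⟶ Q) :=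
  inferInstanceAs (Module ℚ (∀ (i : P.ι) (j : Q.ι), HomT (P.X i) (Q.X j)))

lemma mat_smul_apply {P Q : Mat_ (Twist C X)} (r : ℚ) (f : P ⟶ Q) (i : P.ι) (j : Q.ι) :
    cls ((r • f) i j) = r • cls (f i j) := rfl

noncomputable instance (P : Mat_ (Twist C X)) : Module ℚ (End P) :=
  inferInstanceAs (Module ℚ (P ⟶ P))

lemma smul_comp' {a b c : Twist C X} (r : ℚ) (f : HomT a b) (g : HomT b c) :
    HomT.comp (r • f) g = r • HomT.comp f g := by
  apply cls_inj
  change compL C (r • cls f) (cls g) = r • compL C (cls f) (cls g)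
  rw [map_smul, LinearMap.smul_apply]

lemma comp_smul' {a b c : Twist C X} (r : ℚ) (f : HomT a b) (g : HomT b c) :
    HomT.comp f (r • g) = r • HomT.comp f g := by
  apply cls_inj
  change compL C (cls f) (r • cls g) = r • compL C (cls f) (cls g)
  rw [map_smul]

noncomputable instance (P : Mat_ (Twist C X)) : Algebra ℚ (End P) :=
  Algebra.ofModule
    (fun r x y => by
      refine Mat_.hom_ext (C := Twist C X) _ _ fun i j => ?_
      change ((y : P ⟶ P) ≫ (r • x : P ⟶ P)) i j = (r • ((y : P ⟶ P) ≫ (x : P ⟶ P)) : P ⟶ P) i j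
      apply cls_inj
      rw [mat_smul_apply, Mat_.comp_apply, Mat_.comp_apply, cls_sum, cls_sum, Finset.smul_sum]
      exact Finset.sum_congr rfl fun l _ => congrArg cls (comp_smul' r _ _))
    (fun r x y => by
      refine Mat_.hom_ext (C := Twist C X) _ _ fun i j => ?_
      change ((r • y : P ⟶ P) ≫ (x : P ⟶ P)) i j = (r • ((y : P ⟶ P) ≫ (x : P ⟶ P)) : P ⟶ P) i j
      apply cls_inj
      rw [mat_smul_apply, Mat_.comp_apply, Mat_.comp_apply, cls_sum, cls_sum, Finset.smul_sum]
      exact Finset.sum_congr rfl fun l _ => congrArg cls (smul_comp' r _ _))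

lemma finite_end (hS : Pool.Agent.W484.CH.IsStandard H)
    (hX : ∀ i j, RatEqNum H ((X i).prod (X j))) (P : Mat_ (Twist C X)) :
    Module.Finite ℚ (End P) := by
  have h1 : ∀ i j : P.ι, Module.Finite ℚ (HomT (P.X i) (P.X j)) := fun i j =>
    finite_homT hS hX _ _
  exact inferInstanceAs (Module.Finite ℚ (∀ (i : P.ι) (j : P.ι), HomT (P.X i) (P.X j)))

/-- Endomorphism rings are semisimple. -/
theorem isSemisimple_end (hS : Pool.Agent.W484.CH.IsStandard H) (hG : IsGradedCommutative H)
    (hX : ∀ i j, RatEqNum H ((X i).prod (X j))) (P : Mat_ (Twist C X)) :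
    IsSemisimpleRing (End P) := by
  classical
  have hfin := finite_end hS hX P
  obtain ⟨κ, hκ0, hκ⟩ := str_comp hS hG P
  refine isSemisimpleRing_of_trace (str H P) (fun a ha => str_nilpotent P ha) fun a ha => ?_
  refine Mat_.hom_ext (C := Twist C X) _ _ fun i₀ j₀ => ?_
  apply cls_inj
  change cls ((a : P ⟶ P) i₀ j₀) = 0
  have hmem := cls_mem ((a : P ⟶ P) i₀ j₀)
  set n : ℤ := ((X (P.X i₀).idx).dim : ℤ) + ((P.X j₀).twist - (P.X i₀).twist) with hn
  rcases lt_or_ge n 0 with hneg | hpos
  · have h1 : cls ((a : P ⟶ P) i₀ j₀) ∈ C.gr ((X (P.X i₀).idx).prod (X (P.X j₀).idx)) n := hmem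
    rw [C.gr_neg _ _ hneg, Submodule.mem_bot] at h1
    exact h1
  obtain ⟨m, hm⟩ := Int.eq_ofNat_of_zero_le hpos
  refine hX (P.X i₀).idx (P.X j₀).idx m _ (by
    change cls ((a : P ⟶ P) i₀ j₀) ∈ C.gr _ (m : ℤ)
    rw [← hm]; exact hmem) fun j w hj hw => ?_
  -- the test endomorphism
  have hw' : C.Deg ((X (P.X j₀).idx).dim + ((P.X i₀).twist - (P.X j₀).twist)) (tp C w) := by
    have h2 : tp C w ∈ C.gr _ (j : ℤ) := C.pull_mem _ hw
    have h3 : (j : ℤ) = ((X (P.X j₀).idx).dim : ℤ) + ((P.X i₀).twist - (P.X j₀).twist) := by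
      rw [dim_prod] at hj
      have : (m : ℤ) + j = (X (P.X i₀).idx).dim + (X (P.X j₀).idx).dim := by
        exact_mod_cast hj
      linarith
    rw [h3] at h2
    exact h2
  let b : P ⟶ P := fun i j => if h : i = j₀ ∧ j = i₀ then
    eqToHom (by rw [h.1]) ≫ (ofCls (tp C w) hw' : P.X j₀ ⟶ P.X i₀) ≫ eqToHom (by rw [h.2]) else 0
  have hb : b j₀ i₀ = ofCls (tp C w) hw' := by
    simp [b]
  have hb0 : ∀ i j, ¬ (i = j₀ ∧ j = i₀) → b i j = 0 := fun i j h => by
    simp only [b, dif_neg h]
  have h4 := ha b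
  have h5 : str H P ((a : P ⟶ P) ≫ b) = 0 := h4
  rw [hκ, Finset.sum_eq_single i₀, Finset.sum_eq_single j₀] at h5
  · rw [hb, cls_ofCls, tp_tp, mul_eq_zero] at h5
    have h6 := h5.resolve_left (hκ0 i₀)
    rw [chow_mul_comm] at h6
    exact h6
  · intro j _ hj
    rw [hb0 j i₀ (fun h => hj h.1), cls_zero]
    have : tp C (0 : C.A ((X (P.X j).idx).prod (X (P.X i₀).idx))) = 0 := map_zero _
    rw [this, zero_mul, map_zero, map_zero, mul_zero]
  · simp
  · intro i _ hi
    refine Finset.sum_eq_zero fun j _ => ?_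
    rw [hb0 j i (fun h => hi h.2), cls_zero]
    have : tp C (0 : C.A ((X (P.X j).idx).prod (X (P.X i).idx))) = 0 := map_zero _
    rw [this, zero_mul, map_zero, map_zero, mul_zero]
  · simp

/-- **The category of Chow motives generated by a family of varieties is regular, if rational and
numerical equivalence coincide on the products of two members.** -/
theorem isRegularCat_chowMotives (hS : Pool.Agent.W484.CH.IsStandard H)
    (hG : IsGradedCommutative H) (hX : ∀ i j, RatEqNum H ((X i).prod (X j))) :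
    IsRegularCat (ChowMotives C X) := by
  have hb : HasBinaryBiproducts (Mat_ (Twist C X)) :=
    hasBinaryBiproducts_of_finite_biproducts _
  refine isRegularCat_karoubi (isRegularCat_of_end fun P f => ?_)
  have := isSemisimple_end hS hG hX P
  obtain ⟨g, hg⟩ := exists_quasi_inverse (R := End P) f
  refine ⟨g, ?_⟩
  have h1 : f ≫ (g : P ⟶ P) ≫ f = f := hg
  exact h1

/-- The category of Chow motives generated by a family of varieties is abelian and semisimple, if
rational and numerical equivalence coincide on the products of two members. -/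
theorem abelian_chowMotives (hS : Pool.Agent.W484.CH.IsStandard H)
    (hG : IsGradedCommutative H) (hX : ∀ i j, RatEqNum H ((X i).prod (X j))) :
    Nonempty (Abelian (ChowMotives C X)) ∧
      ∀ (M N : ChowMotives C X) (f : M ⟶ N), Mono f → IsSplitMono f := by
  have h := isRegularCat_chowMotives hS hG hX
  have hp : HasFiniteProducts (ChowMotives C X) := inferInstance
  exact ⟨abelian_of_reg h, fun M N f _ => isSplitMono_of_reg h f⟩

end Pool.Agent.N166.AB
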