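import Pool.Agent.N166.AB.Fin
import Pool.Agent.W484.CK.Main

/-!
# Motives of almost all abelian varieties over finite fields
-/

open CategoryTheory CategoryTheory.Limits CategoryTheory.Idempotents AlgebraicGeometry

universe u v w t

namespace Pool.Agent.N166.AB

open Polynomial Pool.Agent.H914 Pool.Agent.H914.VarClass Pool.Agent.H914.VarClass.Obj
  Pool.Agent.W492.BB Pool.Agent.W550.Corr Pool.Agent.TH133
  Pool.Agent.W484.CK

set_option linter.unusedSectionVars false

section iso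

variable {k : Type u} [Field k] {𝒱 : VarClass k} {C : TheoryData.{u, v, 0} 𝒱 ℚ} {K : Type w}
  [Field K] {H : WeilTheoryData.{u, v, w} C K} [hC : IsChow C] [hH : IsWeil H]

/-- Invariance under isomorphisms. -/
lemma ratEqNum_of_iso {X Y : 𝒱.Obj} (f : X ⟶ Y) (g : Y ⟶ X) (h1 : f ≫ g = 𝟙 X) (h2 : g ≫ f = 𝟙 Y)
    (hd : X.dim = Y.dim) (hX : RatEqNum H X) : RatEqNum H Y := by
  intro i z hz hnum
  have h3 : C.pull f z = 0 := by
    refine hX i _ (C.pull_mem f hz) fun j w hj hw => ?_
    have h4 := hnum j (C.push f w) (by rw [← hd]; exact hj) (by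
      have h5 := C.push_mem f hw
      rw [hd, sub_self, mul_zero, add_zero] at h5
      exact h5)
    change H.tr Y (H.cl (z * C.push f w)) = 0 at h4
    rw [← C.proj_left, H.cl_push, H.tr_push] at h4
    exact h4
  have h6 : C.pull g (C.pull f z) = z := by
    rw [← C.pull_comp, h2, C.pull_id]
  rw [← h6, h3, map_zero]

/-- `(A × B) × (Z × W) ≅ (A × Z) × (B × W)`. -/
noncomputable def exch (A B Z W : 𝒱.Obj) :
    (A.prod B).prod (Z.prod W) ⟶ (A.prod Z).prod (B.prod W) :=
  Obj.lift (Obj.lift (fst _ _ ≫ fst _ _) (snd _ _ ≫ fst _ _))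
    (Obj.lift (fst _ _ ≫ snd _ _) (snd _ _ ≫ snd _ _))

lemma exch_exch (A B Z W : 𝒱.Obj) : exch A B Z W ≫ exch A Z B W = 𝟙 _ := by
  apply prod_ext
  · apply prod_ext <;> simp [exch, comp_lift]
  · apply prod_ext <;> simp [exch, comp_lift]

lemma ratEqNum_exch {A B Z W : 𝒱.Obj} (h : RatEqNum H ((A.prod B).prod (Z.prod W))) :
    RatEqNum H ((A.prod Z).prod (B.prod W)) :=
  ratEqNum_of_iso (exch A B Z W) (exch A Z B W) (exch_exch A B Z W) (exch_exch A Z B W)
    (by simp only [dim_prod]; ring) h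

end iso

theorem abelianForRankOver_of_chow {E : IntermediateField ℚ ℂ} {q r : ℕ} {I : Type} {f : I → ℤ[X]}
    (h : ChowForRankOver E q r f) : AbelianForRankOver E q r f := by
  intro k _ 𝒱 C _ _ K _ _ _ H _ hG s J A Z πA πZ hyp
  by_cases hJ : Nonempty J
  · obtain ⟨j₀⟩ := hJ
    have hS := isStandard_bridge (hyp j₀ j₀).1.standard
    refine abelian_chowMotives hS hG fun i j => ?_
    obtain ⟨h1, h2, h3⟩ := hyp i j
    exact ratEqNum_exch ((h k 𝒱 C K H s _ _ _ _ h1 h2).2.1.2 h3)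
  · have hJ' : IsEmpty J := not_nonempty_iff.1 hJ
    have hemp : ∀ P : Mat_ (Twist C fun j => (A j).prod (Z j)), IsEmpty P.ι := fun P =>
      ⟨fun i => hJ'.false (P.X i).idx⟩
    have hreg : IsRegularCat (ChowMotives C fun j => (A j).prod (Z j)) := by
      refine isRegularCat_karoubi fun P Q f => ⟨0, ?_⟩
      refine Mat_.hom_ext _ _ fun i => ?_
      exact ((hemp P).false i).elim
    exact ⟨abelian_of_reg hreg, fun M N f _ => isSplitMono_of_reg hreg f⟩

end Pool.Agent.N166.AB
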