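import Pool.Agent.N166.AB.Trace
import Pool.Agent.N166.AB.Diag
import Pool.Agent.TH133.Dual
import Pool.Agent.N166.AB.Alg
import Pool.Agent.Y154.BQ.Pair

/-!
# The realization of the motives and the semisimplicity of the endomorphism rings
-/

open CategoryTheory CategoryTheory.Limits CategoryTheory.Idempotents AlgebraicGeometry

universe u v w t

namespace Pool.Agent.N166.AB

open Module Pool.Agent.H914 Pool.Agent.H914.VarClass Pool.Agent.H914.VarClass.Obj
  Pool.Agent.W492.BB Pool.Agent.W550.Corr Pool.Agent.TH133 Pool.Agent.W484.CK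

set_option linter.unusedSectionVars false

/-- The trace of an endomorphism of a finite product. -/
lemma trace_pi {K : Type*} [Field K] {ι : Type*} [Fintype ι] {V : ι → Type*}
    [∀ i, AddCommGroup (V i)] [∀ i, Module K (V i)] [∀ i, Module.Finite K (V i)]
    (Φ : (∀ i, V i) →ₗ[K] (∀ i, V i)) [DecidableEq ι] :
    LinearMap.trace K (∀ i, V i) Φ =
      ∑ i, LinearMap.trace K (V i) (LinearMap.proj i ∘ₗ Φ ∘ₗ LinearMap.single K V i) := by
  have h1 : Φ = ∑ i, (Φ ∘ₗ LinearMap.single K V i) ∘ₗ LinearMap.proj i := by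
    ext1 i
    ext1 x
    rw [LinearMap.comp_apply, LinearMap.comp_apply, LinearMap.sum_apply,
      Finset.sum_eq_single i]
    · simp
    · intro j _ hj
      simp [hj.symm]
    · simp
  conv_lhs => rw [h1, map_sum]
  refine Finset.sum_congr rfl fun i _ => ?_
  rw [LinearMap.trace_comp_comm']

variable {k : Type u} [Field k] {𝒱 : VarClass k} {C : TheoryData.{u, v, 0} 𝒱 ℚ} {K : Type w}
  [Field K] [CharZero K] {H : WeilTheoryData.{u, v, w} C K} [hC : IsChow C] [hI : PushIso C] [hH : IsWeil H]
  {J : Type t} {X : J → 𝒱.Obj}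

/-- The class of a morphism. -/
noncomputable def cls {a b : Twist C X} (f : HomT a b) : C.A ((X a.idx).prod (X b.idx)) := f.cls

/-- The morphism given by a class. -/
noncomputable def ofCls {a b : Twist C X} (x : C.A ((X a.idx).prod (X b.idx)))
    (hx : C.Deg ((X a.idx).dim + (b.twist - a.twist)) x) : HomT a b := ⟨x, hx⟩

lemma cls_mem {a b : Twist C X} (f : HomT a b) :
    cls f ∈ C.gr ((X a.idx).prod (X b.idx)) ((X a.idx).dim + (b.twist - a.twist)) := f.2

lemma cls_ofCls {a b : Twist C X} (x : C.A ((X a.idx).prod (X b.idx)))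
    (hx : C.Deg ((X a.idx).dim + (b.twist - a.twist)) x) : cls (ofCls x hx) = x := rfl

lemma cls_inj {a b : Twist C X} {f g : HomT a b} (h : cls f = cls g) : f = g := HomT.ext h

lemma cls_add {a b : Twist C X} (f g : HomT a b) : cls (f + g) = cls f + cls g := rfl

lemma cls_zero {a b : Twist C X} : cls (0 : HomT a b) = 0 := rfl

lemma cls_comp {a b c : Twist C X} (f : a ⟶ b) (g : b ⟶ c) :
    cls (f ≫ g) = C.comp (cls f) (cls g) := rfl

lemma cls_id (a : Twist C X) : cls (𝟙 a) = dg C (X a.idx) := rfl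

/-- The class, as an additive map. -/
noncomputable def clsHom (a b : Twist C X) : HomT a b →+ C.A ((X a.idx).prod (X b.idx)) where
  toFun := cls
  map_zero' := rfl
  map_add' _ _ := rfl

lemma cl_comp {Y Z W : 𝒱.Obj} (Γ : C.A (Y.prod Z)) (Δ : C.A (Z.prod W)) :
    H.cl (C.comp Γ Δ) = H.comp (H.cl Γ) (H.cl Δ) := by
  rw [TheoryData.comp, TheoryData.comp, H.cl_push, map_mul, H.cl_pull, H.cl_pull]

variable (H) in
/-- The cohomology of a finite sum of twisted motives. -/
abbrev Vsp (P : Mat_ (Twist C X)) : Type _ := ∀ i : P.ι, H.A (X (P.X i).idx)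

variable (H) in
/-- The action of morphisms on the cohomology. -/
noncomputable def rho {P Q : Mat_ (Twist C X)} (c : P ⟶ Q) : Vsp H P →ₗ[K] Vsp H Q :=
  LinearMap.pi fun j => ∑ i, H.actL (H.cl (cls (c i j))) ∘ₗ LinearMap.proj i

lemma rho_apply {P Q : Mat_ (Twist C X)} (c : P ⟶ Q) (v : Vsp H P) (j : Q.ι) :
    rho H c v j = ∑ i, H.act (H.cl (cls (c i j))) (v i) := by
  rw [rho, LinearMap.pi_apply, LinearMap.sum_apply]
  rfl

lemma cls_sum {a b : Twist C X} {ι : Type*} (s : Finset ι) (f : ι → (a ⟶ b)) :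
    cls (∑ i ∈ s, f i) = ∑ i ∈ s, cls (f i) :=
  map_sum (clsHom a b) _ s

lemma rho_comp {P Q R : Mat_ (Twist C X)} (c : P ⟶ Q) (d : Q ⟶ R) :
    rho H (c ≫ d) = rho H d ∘ₗ rho H c := by
  ext v l
  rw [rho_apply, LinearMap.comp_apply, rho_apply]
  have h1 : ∀ i, H.act (H.cl (cls ((c ≫ d) i l))) (v i) =
      ∑ j, H.act (H.cl (cls (d j l))) (H.act (H.cl (cls (c i j))) (v i)) := by
    intro i
    rw [Mat_.comp_apply, cls_sum, map_sum, act_sum]
    refine Finset.sum_congr rfl fun j _ => ?_
    rw [cls_comp, cl_comp, H.act_comp]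
  rw [Finset.sum_congr rfl fun i _ => h1 i, Finset.sum_comm]
  refine Finset.sum_congr rfl fun j _ => ?_
  rw [rho_apply, act_map_sum]

lemma rho_id (P : Mat_ (Twist C X)) : rho H (𝟙 P) = LinearMap.id := by
  refine LinearMap.ext fun v => funext fun l => ?_
  rw [rho_apply, Finset.sum_eq_single l]
  · rw [Mat_.id_apply_self, cls_id]
    have : H.cl (dg C (X (P.X l).idx)) = dg H.toTheoryData (X (P.X l).idx) := by
      rw [dg, dg, TheoryData.graph, TheoryData.graph, H.cl_push, map_one]
    rw [this, act_dg]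
    rfl
  · intro i _ hi
    rw [Mat_.id_apply_of_ne _ _ _ hi, cls_zero, map_zero, TheoryData.act_zero]
  · simp

lemma rho_add {P Q : Mat_ (Twist C X)} (c d : P ⟶ Q) : rho H (c + d) = rho H c + rho H d := by
  ext v l
  rw [rho_apply, LinearMap.add_apply, Pi.add_apply, rho_apply, rho_apply, ← Finset.sum_add_distrib]
  refine Finset.sum_congr rfl fun i _ => ?_
  rw [Mat_.add_apply, cls_add, map_add, TheoryData.act_add]

variable (H) in
/-- The realization of the endomorphism ring. -/
noncomputable def rhoHom (P : Mat_ (Twist C X)) : End P →+* Module.End K (Vsp H P) where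
  toFun c := rho H (P := P) (Q := P) c
  map_one' := rho_id P
  map_mul' a b := rho_comp (P := P) (Q := P) (R := P) b a
  map_zero' := by
    ext v l
    rw [rho_apply]
    refine Finset.sum_eq_zero fun i _ => ?_
    change H.act (H.cl (cls (0 : P.X i ⟶ P.X l))) (v i) = 0
    rw [cls_zero, map_zero, TheoryData.act_zero]
  map_add' a b := rho_add (P := P) (Q := P) a b

variable (H) in
/-- The parity operator. -/
noncomputable def Par (P : Mat_ (Twist C X)) : Module.End K (Vsp H P) :=
  LinearMap.pi fun i => par H (X (P.X i).idx) ∘ₗ LinearMap.proj i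

lemma Par_apply (P : Mat_ (Twist C X)) (v : Vsp H P) (i : P.ι) :
    Par H P v i = par H (X (P.X i).idx) (v i) := rfl

lemma par_act {a b : Twist C X} (f : a ⟶ b) (x : H.A (X a.idx)) :
    H.act (H.cl (cls f)) (par H (X a.idx) x) = par H (X b.idx) (H.act (H.cl (cls f)) x) := by
  have key : H.actL (H.cl (cls f)) ∘ₗ par H (X a.idx) =
      par H (X b.idx) ∘ₗ H.actL (H.cl (cls f)) := by
    refine ext_of_internal (H.gr (X a.idx)) (H.isInternal _) fun n x hx => ?_
    rw [LinearMap.comp_apply, LinearMap.comp_apply, par_apply hx, map_smul, H.actL_apply,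
      par_apply (actH_mem H (cls_mem f) hx), sg_add, sg_two, mul_one]
  exact LinearMap.congr_fun key x

lemma commute_Par (P : Mat_ (Twist C X)) (c : End P) : Commute (rhoHom H P c) (Par H P) := by
  refine LinearMap.ext fun v => ?_
  ext l
  change rho H (P := P) (Q := P) c (Par H P v) l = Par H P (rho H (P := P) (Q := P) c v) l
  rw [rho_apply, Par_apply, rho_apply, map_sum]
  refine Finset.sum_congr rfl fun i _ => ?_
  rw [Par_apply, par_act]

/-- The super trace of an endomorphism. -/
noncomputable def str (H : WeilTheoryData.{u, v, w} C K) [IsWeil H] (P : Mat_ (Twist C X))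
    (c : End P) : K :=
  LinearMap.trace K (Vsp H P) (rhoHom H P c * Par H P)

lemma str_nilpotent (P : Mat_ (Twist C X)) {c : End P} (hc : IsNilpotent c) :
    str H P c = 0 := by
  have h1 : IsNilpotent (rhoHom H P c) := hc.map (rhoHom H P)
  have h2 : IsNilpotent (rhoHom H P c * Par H P) := (commute_Par P c).isNilpotent_mul_right h1
  exact (LinearMap.isNilpotent_trace_of_isNilpotent h2).eq_zero

lemma str_eq (hS : Pool.Agent.W484.CH.IsStandard H) (P : Mat_ (Twist C X)) (c : P ⟶ P) :
    str H P c = ∑ i, LinearMap.trace K (H.A (X (P.X i).idx))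
      (H.actL (H.cl (cls (c i i))) ∘ₗ par H (X (P.X i).idx)) := by
  classical
  have hf : ∀ i : P.ι, Module.Finite K (H.A (X (P.X i).idx)) := fun i => hS.finite _
  rw [str, trace_pi]
  refine Finset.sum_congr rfl fun i _ => ?_
  congr 1
  refine LinearMap.ext fun x => ?_
  rw [LinearMap.comp_apply, LinearMap.comp_apply, LinearMap.comp_apply, LinearMap.proj_apply]
  change rho H (P := P) (Q := P) c (Par H P (LinearMap.single K _ i x)) i = _
  rw [rho_apply, Finset.sum_eq_single i]
  · rw [Par_apply, LinearMap.single_apply, Pi.single_eq_same]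
    rfl
  · intro j _ hj
    rw [Par_apply, LinearMap.single_apply, Pi.single_eq_of_ne hj, map_zero]
    exact H.act_map_zero _
  · simp

/-- The super trace of a composition. -/
lemma str_comp (hS : Pool.Agent.W484.CH.IsStandard H) (hG : IsGradedCommutative H)
    (P : Mat_ (Twist C X)) : ∃ κ : P.ι → K, (∀ i, κ i ≠ 0) ∧ ∀ c d : P ⟶ P, str H P (c ≫ d) =
      ∑ i, ∑ j, κ i * H.tr _ (H.cl (tp C (cls (d j i)) * cls (c i j))) := by
  choose κ hκ0 hκ using fun i : P.ι => exists_kappa hS (X (P.X i).idx)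
  refine ⟨κ, hκ0, fun c d => ?_⟩
  rw [str_eq hS]
  refine Finset.sum_congr rfl fun i _ => ?_
  rw [trace_formula hS hG (hκ i), Mat_.comp_apply, cls_sum, map_sum, map_sum, map_sum,
    Finset.mul_sum]
  refine Finset.sum_congr rfl fun j _ => ?_
  rw [cls_comp, ← H.cl_pull, pull_diag_comp, H.cl_push, H.tr_push]
  rfl

end Pool.Agent.N166.AB
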