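import Pool.Agent.W484.CK.Stm
import Pool.Agent.N166.AB.Diag
import Mathlib.CategoryTheory.Idempotents.Biproducts
import Mathlib.CategoryTheory.Preadditive.Mat

/-!
# The category of Chow motives generated by a family of varieties
-/

open CategoryTheory CategoryTheory.Idempotents AlgebraicGeometry Polynomial

universe u v w t

namespace Pool.Agent.N166.AB

open Pool.Agent.H914 Pool.Agent.H914.VarClass Pool.Agent.H914.VarClass.Obj Pool.Agent.W492.BB
  Pool.Agent.W484.CK

variable {k : Type u} [Field k] {𝒱 : VarClass k}

/-- The cohomology rings are graded-commutative: `a b = (-1)^(i j) b a` for `a ∈ H^i(X)` and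
`b ∈ H^j(X)`. -/
def IsGradedCommutative {C : TheoryData.{u, v, 0} 𝒱 ℚ} {K : Type w} [Field K]
    (H : WeilTheoryData.{u, v, w} C K) : Prop :=
  ∀ (X : 𝒱.Obj) (i j : ℤ) (a b : H.A X), H.Deg i a → H.Deg j b →
    H.mul a b = if Even (i * j) then H.mul b a else -H.mul b a

/-- Push-forwards along isomorphisms preserve fundamental classes. -/
class PushIso (C : TheoryData.{u, v, 0} 𝒱 ℚ) : Prop where
  push_one : ∀ {X Y : 𝒱.Obj} (f : X ⟶ Y) (g : Y ⟶ X), f ≫ g = 𝟙 X → g ≫ f = 𝟙 Y →
    C.down f 1 = 1

instance {C : TheoryData.{u, v, 0} 𝒱 ℚ} [h : PushIso C] : Pool.Agent.W550.Corr.HasIso C where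
  push_one := h.push_one

/-- The Tate twist `h(X_j)(m)` of the motive of a member of the family `X` of varieties. -/
structure Twist (C : TheoryData.{u, v, 0} 𝒱 ℚ) {J : Type t} (X : J → 𝒱.Obj) where
  /-- the index of the variety -/
  idx : J
  /-- the twist -/
  twist : ℤ

variable {C : TheoryData.{u, v, 0} 𝒱 ℚ} {J : Type t} {X : J → 𝒱.Obj}

/-- A morphism `h(X_i)(m) ⟶ h(X_j)(n)`: a class of codimension `dim X_i + n - m` on `X_i × X_j`,
that is, a correspondence of degree `n - m` modulo rational equivalence. -/
@[ext]
structure HomT (a b : Twist C X) where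
  /-- the class -/
  cls : C.A ((X a.idx).prod (X b.idx))
  deg : C.Deg ((X a.idx).dim + (b.twist - a.twist)) cls

namespace HomT

variable {a b c d : Twist C X}

lemma add_deg (f g : HomT a b) :
    C.Deg ((X a.idx).dim + (b.twist - a.twist)) (f.cls + g.cls) := Submodule.add_mem _ f.2 g.2
lemma zero_deg (a b : Twist C X) : C.Deg ((X a.idx).dim + (b.twist - a.twist))
    (0 : C.A ((X a.idx).prod (X b.idx))) := Submodule.zero_mem _
lemma neg_deg (f : HomT a b) : C.Deg ((X a.idx).dim + (b.twist - a.twist)) (-f.cls) :=
  Submodule.neg_mem _ f.2

/-- the sum -/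
noncomputable def add (f g : HomT a b) : HomT a b := ⟨f.cls + g.cls, add_deg f g⟩

/-- the zero morphism -/
noncomputable def zero : HomT a b := ⟨0, zero_deg a b⟩

/-- the opposite -/
noncomputable def neg (f : HomT a b) : HomT a b := ⟨-f.cls, neg_deg f⟩

lemma add_assoc (f g h : HomT a b) : add (add f g) h = add f (add g h) :=
  HomT.ext (_root_.add_assoc _ _ _)
lemma add_comm (f g : HomT a b) : add f g = add g f := HomT.ext (_root_.add_comm _ _)
lemma zero_add (f : HomT a b) : add zero f = f := HomT.ext (_root_.zero_add _)
lemma add_zero (f : HomT a b) : add f zero = f := HomT.ext (_root_.add_zero _)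
lemma neg_add (f : HomT a b) : add (neg f) f = zero := HomT.ext (neg_add_cancel _)

noncomputable instance group (a b : Twist C X) : AddCommGroup (HomT a b) :=
  letI : Add (HomT a b) := ⟨add⟩
  letI : Zero (HomT a b) := ⟨zero⟩
  letI : Neg (HomT a b) := ⟨neg⟩
  { add_assoc := add_assoc
    zero_add := zero_add
    add_zero := add_zero
    neg_add_cancel := neg_add
    add_comm := add_comm
    nsmul := nsmulRec
    zsmul := zsmulRec }

variable [hC : IsChow C]

lemma diagonal_deg (a : Twist C X) :
    C.Deg ((X a.idx).dim + (a.twist - a.twist)) (diagonal C (X a.idx)) :=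
  diagonal_mem (by ring)

lemma compose_deg (f : HomT a b) (g : HomT b c) :
    C.Deg ((X a.idx).dim + (c.twist - a.twist)) (compose C f.cls g.cls) :=
  compose_mem f.deg g.deg (by ring)

/-- The identity: the class of the diagonal. -/
noncomputable def id (a : Twist C X) : HomT a a := ⟨diagonal C (X a.idx), diagonal_deg a⟩

/-- The composition of correspondences. -/
noncomputable def comp (f : HomT a b) (g : HomT b c) : HomT a c :=
  ⟨compose C f.cls g.cls, compose_deg f g⟩

variable [hI : PushIso C]

lemma id_comp (f : HomT a b) : comp (id a) f = f :=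
  HomT.ext (Pool.Agent.W550.Corr.dg_comp C f.cls)

lemma comp_id (f : HomT a b) : comp f (id b) = f :=
  HomT.ext (Pool.Agent.W550.Corr.comp_dg C f.cls)

lemma assoc (f : HomT a b) (g : HomT b c) (h : HomT c d) :
    comp (comp f g) h = comp f (comp g h) :=
  HomT.ext (Pool.Agent.W550.Corr.comp_assoc C f.cls g.cls h.cls)

lemma add_comp (a b c : Twist C X) (f f' : HomT a b) (g : HomT b c) :
    comp (f + f') g = comp f g + comp f' g :=
  HomT.ext (Pool.Agent.W550.Corr.add_comp C f.cls f'.cls g.cls)

lemma comp_add (a b c : Twist C X) (f : HomT a b) (g g' : HomT b c) :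
    comp f (g + g') = comp f g + comp f g' :=
  HomT.ext (Pool.Agent.W550.Corr.comp_add C f.cls g.cls g'.cls)

end HomT

variable [hC : IsChow C] [hI : PushIso C]

/-- The category of the motives `h(X_j)(m)`, with the composition of correspondences. -/
noncomputable instance : Category (Twist C X) where
  Hom := HomT
  id := HomT.id
  comp := HomT.comp
  id_comp := HomT.id_comp
  comp_id := HomT.comp_id
  assoc := HomT.assoc

noncomputable instance : Preadditive (Twist C X) where
  homGroup := HomT.group
  add_comp := HomT.add_comp
  comp_add := HomT.comp_add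

/-- The category of Chow motives with rational coefficients generated by the family `X` of
varieties: the idempotent completion of the additive category of finite direct sums of Tate twists
`h(X_j)(m)`, with the correspondences modulo rational equivalence as morphisms. -/
abbrev ChowMotives (C : TheoryData.{u, v, 0} 𝒱 ℚ) [IsChow C] [PushIso C] {J : Type t}
    (X : J → 𝒱.Obj) := Karoubi (Mat_ (Twist C X))

/-- `AbelianForRankOver E q r f`: the following holds for the Chow groups `C` with rational
coefficients of all classes `𝒱` of varieties over fields `k` (finite, in the intended use), every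
Weil cohomology theory `H` (with graded-commutative rings) with coefficients in an algebraically
closed field `K` of characteristic zero, every `s` and all families `A j`, `Z j` of varieties with
Frobenius endomorphisms such that, for any two indices `i` and `j`,

* `A i × A j` and `Z i × Z j` are as in `IsSituation`: `A i × A j` is an abelian variety over the
  field with `q ^ s` elements, isogenous to a product of powers of abelian varieties coming from the
  field with `q` elements with characteristic polynomials `f`, the eigenvalues of Frobenius on the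
  cohomology of `Z i × Z j` generate a group of rank at most `r` modulo the group of the numbers
  with a power in `E`, and homologically trivial self-correspondences of degree zero of
  `(A i × A j) × (Z i × Z j)` are nilpotent;
* rational and numerical equivalence coincide on `Z i × Z j`.

The category of Chow motives with rational coefficients generated by the varieties `A j × Z j` is
abelian, and every monomorphism in it is split. -/
def AbelianForRankOver (E : IntermediateField ℚ ℂ) (q r : ℕ) {I : Type} (f : I → ℤ[X]) : Prop :=
  ∀ (k : Type) [Field k] (𝒱 : VarClass k) (C : TheoryData.{0, 0, 0} 𝒱 ℚ) [IsChow C] [PushIso C]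
    (K : Type) [Field K] [IsAlgClosed K] [CharZero K] (H : WeilTheoryData.{0, 0, 0} C K)
    [IsWeil H], IsGradedCommutative H → ∀ (s : ℕ) (J : Type) (A Z : J → 𝒱.Obj)
    (πA : ∀ j, A j ⟶ A j) (πZ : ∀ j, Z j ⟶ Z j),
    (∀ i j, IsSituation H E q r s f (prodMap (πA i) (πA j)) (prodMap (πZ i) (πZ j)) ∧
      IsFrobenius C (prodMap (prodMap (πA i) (πA j)) (prodMap (πZ i) (πZ j))) (q ^ s) ∧
      RatEqNum H ((Z i).prod (Z j))) →
    Nonempty (Abelian (ChowMotives C fun j => (A j).prod (Z j))) ∧
      ∀ (M N : ChowMotives C fun j => (A j).prod (Z j)) (φ : M ⟶ N), Mono φ → IsSplitMono φ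

end Pool.Agent.N166.AB
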