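import Pool.Agent.W484.CH.Kun
import Pool.Agent.N166.AB.Stm

/-!
# The trace formula for correspondences
-/

open CategoryTheory AlgebraicGeometry

universe u v w

namespace Pool.Agent.N166.AB

open Module Pool.Agent.H914 Pool.Agent.H914.VarClass Pool.Agent.H914.VarClass.Obj
  Pool.Agent.W492.BB Pool.Agent.W550.Corr Pool.Agent.W484.CH

variable {k : Type u} [Field k] {𝒱 : VarClass k} {C : TheoryData.{u, v, 0} 𝒱 ℚ} {K : Type w}
  [Field K]

/-- The sign `(-1)^n`. -/
def sg (n : ℤ) : K := if Even n then 1 else -1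

lemma sg_mul_self (n : ℤ) : (sg n : K) * sg n = 1 := by
  unfold sg; split_ifs <;> ring

lemma sg_add (m n : ℤ) : (sg (m + n) : K) = sg m * sg n := by
  unfold sg
  by_cases hm : Even m <;> by_cases hn : Even n <;> simp [hm, hn, Int.even_add]

lemma sg_mul (m : ℤ) : (sg (m * m) : K) = sg m := by
  unfold sg
  by_cases hm : Even m <;> simp [hm, Int.even_mul]

lemma sg_two (m : ℤ) : (sg (2 * m) : K) = 1 := by
  unfold sg
  simp

section lin

variable {V : Type*} [AddCommGroup V] [Module K V]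

lemma exists_diag (g : ℤ → Submodule K V) (h : DirectSum.IsInternal g) (s : ℤ → K) :
    ∃ φ : V →ₗ[K] V, ∀ i, ∀ x ∈ g i, φ x = s i • x := by
  classical
  let e := LinearEquiv.ofBijective (DirectSum.coeLinearMap g) h
  refine ⟨(DirectSum.toModule K ℤ V fun i => s i • (g i).subtype) ∘ₗ e.symm.toLinearMap,
    fun i x hx => ?_⟩
  have h1 : e.symm x = DirectSum.lof K ℤ (fun i => g i) i ⟨x, hx⟩ := by
    rw [LinearEquiv.symm_apply_eq]
    change x = DirectSum.coeLinearMap g _
    rw [DirectSum.coeLinearMap_lof]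
  rw [LinearMap.comp_apply]
  change DirectSum.toModule K ℤ V _ (e.symm x) = _
  rw [h1, DirectSum.toModule_lof]
  rfl

lemma ext_of_internal {W : Type*} [AddCommGroup W] [Module K W] (g : ℤ → Submodule K V)
    (h : DirectSum.IsInternal g) {φ ψ : V →ₗ[K] W} (hφ : ∀ i, ∀ x ∈ g i, φ x = ψ x) : φ = ψ := by
  ext x
  have hx : x ∈ ⨆ i, g i := by
    rw [h.submodule_iSup_eq_top]; trivial
  have h3 : ⨆ i, g i ≤ LinearMap.ker (φ - ψ) :=
    iSup_le fun i x hx => LinearMap.mem_ker.2 (by
      rw [LinearMap.sub_apply, hφ i x hx, sub_self])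
  have := LinearMap.mem_ker.1 (h3 hx)
  rwa [LinearMap.sub_apply, sub_eq_zero] at this

end lin

variable {H : WeilTheoryData.{u, v, w} C K} [hC : IsChow C] [hH : IsWeil H] {X Y Z : 𝒱.Obj}

variable (H) in
/-- The operator `(-1)^n` on `H^n(X)`. -/
noncomputable def par (X : 𝒱.Obj) : H.A X →ₗ[K] H.A X :=
  (exists_diag (H.gr X) (H.isInternal X) sg).choose

lemma par_apply {n : ℤ} {x : H.A X} (hx : x ∈ H.gr X n) : par H X x = (sg n : K) • x :=
  (exists_diag (H.gr X) (H.isInternal X) sg).choose_spec n x hx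

variable [CharZero K]

/-- Integration over the first factor. -/
lemma exists_kappa (hS : Pool.Agent.W484.CH.IsStandard H) (X : 𝒱.Obj) : ∃ κ : K, κ ≠ 0 ∧
    ∀ a : H.A X, H.push (snd X X) (H.pull (fst X X) a) = (κ * H.tr X a) • (1 : H.A X) := by
  obtain ⟨τ, hτ, htr⟩ := exists_tau hS X X
  refine ⟨τ⁻¹, inv_ne_zero hτ, fun a => ?_⟩
  rw [← sub_eq_zero]
  apply H.nondeg
  intro b
  have h1 := htr a b
  rw [TheoryData.ext, ← H.tr_push (snd X X), H.proj_right] at h1
  rw [sub_mul, map_sub, smul_mul_assoc, one_mul, map_smul, smul_eq_mul, sub_eq_zero]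
  field_simp
  linear_combination h1

/-- The trace formula for decomposable classes. -/
lemma trace_ext (hS : Pool.Agent.W484.CH.IsStandard H) (hG : IsGradedCommutative H) {κ : K}
    (hκ : ∀ a : H.A X, H.push (snd X X) (H.pull (fst X X) a) = (κ * H.tr X a) • (1 : H.A X))
    {m : ℤ} (a : H.A X) {b : H.A X} (hb : b ∈ H.gr X m) :
    LinearMap.trace K (H.A X) (H.actL (H.pull (fst X X) a * H.pull (snd X X) b) ∘ₗ par H X) =
      κ * H.tr X (a * b) := by
  have hf := hS.finite X
  obtain ⟨ψ, hψ⟩ := exists_diag (H.gr X) (H.isInternal X) (fun n => sg n * sg (m * n))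
  have h1 : H.actL (H.pull (fst X X) a * H.pull (snd X X) b) ∘ₗ par H X =
      (κ • (H.tr X ∘ₗ LinearMap.mulLeft K a ∘ₗ ψ)).smulRight b := by
    refine ext_of_internal (H.gr X) (H.isInternal X) fun n x hx => ?_
    rw [LinearMap.comp_apply, par_apply hx, map_smul, H.actL_apply, H.act_apply, mul_assoc]
    have h2 : H.pull (snd X X) b * H.pull (fst X X) x =
        (sg (m * n) : K) • (H.pull (fst X X) x * H.pull (snd X X) b) := by
      have h3 := hG _ m n _ _ (H.pull_mem (snd X X) hb) (H.pull_mem (fst X X) hx)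
      rw [sg]
      split_ifs with he
      · rw [if_pos he] at h3
        rw [one_smul]; exact h3
      · rw [if_neg he] at h3
        rw [neg_smul, one_smul]; exact h3
    rw [h2, mul_smul_comm, map_smul, ← mul_assoc, ← map_mul, H.proj_right, hκ, smul_mul_assoc,
      one_mul, LinearMap.smulRight_apply, LinearMap.smul_apply, LinearMap.comp_apply,
      LinearMap.comp_apply, hψ n x hx, map_smul, map_smul, LinearMap.mulLeft_apply, smul_eq_mul,
      smul_eq_mul, smul_smul, smul_smul]
    congr 1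
    ring
  rw [h1, LinearMap.trace_smulRight, LinearMap.smul_apply, LinearMap.comp_apply,
    LinearMap.comp_apply, hψ m b hb, sg_mul, sg_mul_self, one_smul, smul_eq_mul,
    LinearMap.mulLeft_apply]

/-- **The trace formula.** -/
theorem trace_formula (hS : Pool.Agent.W484.CH.IsStandard H) (hG : IsGradedCommutative H) {κ : K}
    (hκ : ∀ a : H.A X, H.push (snd X X) (H.pull (fst X X) a) = (κ * H.tr X a) • (1 : H.A X))
    (γ : H.A (X.prod X)) :
    LinearMap.trace K (H.A X) (H.actL γ ∘ₗ par H X) =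
      κ * H.tr X (H.pull (Obj.lift (𝟙 X) (𝟙 X)) γ) := by
  have hf := hS.finite X
  let Φ : H.A (X.prod X) →ₗ[K] K := LinearMap.trace K (H.A X) ∘ₗ
    LinearMap.lcomp K (H.A X) (par H X) ∘ₗ actB H.toTheoryData
  let Ψ : H.A (X.prod X) →ₗ[K] K := κ • (H.tr X ∘ₗ (H.pull (Obj.lift (𝟙 X) (𝟙 X))).toLinearMap)
  have key : Φ = Ψ := by
    refine ext_of_internal (H.gr (X.prod X)) (H.isInternal (X.prod X)) fun i x hx => ?_
    have h1 := H.kunneth X X i hx
    have h2 : Submodule.span K {c | ∃ (l : ℤ) (a : H.A X) (b : H.A X), a ∈ H.gr X l ∧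
        b ∈ H.gr X (i - l) ∧ c = H.pull (fst X X) a * H.pull (snd X X) b} ≤
          LinearMap.ker (Φ - Ψ) := by
      rw [Submodule.span_le]
      rintro _ ⟨l, a, b, ha, hb, rfl⟩
      rw [SetLike.mem_coe, LinearMap.mem_ker, LinearMap.sub_apply, sub_eq_zero]
      have h3 := trace_ext hS hG hκ a hb
      have h4 : H.pull (Obj.lift (𝟙 X) (𝟙 X)) (H.pull (fst X X) a * H.pull (snd X X) b) =
          a * b := by
        rw [map_mul, ← H.pull_comp, ← H.pull_comp, lift_fst, lift_snd, H.pull_id, H.pull_id]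
      change LinearMap.trace K (H.A X) (H.actL _ ∘ₗ par H X) = κ * H.tr X (H.pull _ _)
      rw [h3, h4]
    have h5 := h2 h1
    rwa [LinearMap.mem_ker, LinearMap.sub_apply, sub_eq_zero] at h5
  exact LinearMap.congr_fun key γ

end Pool.Agent.N166.AB
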